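import Mathlib
import Pool.Agent.Helper27.BEL.Defs

/-!
Star senders for 3-connected graphs from constraint hypergraphs.
-/

set_option autoImplicit false

namespace Pool.Agent.Helper45.BEL

open Pool.Agent.Helper27.BEL

section Points

variable {t : ℕ} (M : ℕ) (A : Inst t)

/-- the `a`-th vertex of the gadget of the hyperedge `i` -/
def pt (i : A.I) (a : Fin M) : A.Z ⊕ (A.I × Fin M) :=
  if h : a.val < t then Sum.inl (A.e i ⟨a.val, h⟩) else Sum.inr (i, a)

theorem pt_pos (i : A.I) (a : Fin M) (h : a.val < t) :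
    pt M A i a = Sum.inl (A.e i ⟨a.val, h⟩) := dif_pos h

theorem pt_neg (i : A.I) (a : Fin M) (h : ¬ a.val < t) :
    pt M A i a = Sum.inr (i, a) := dif_neg h

theorem pt_inj (i : A.I) : Function.Injective (pt M A i) := by
  intro a b h
  by_cases ha : a.val < t <;> by_cases hb : b.val < t
  · rw [pt_pos M A i a ha, pt_pos M A i b hb] at h
    have := A.inj i (Sum.inl.inj h)
    exact Fin.ext (Fin.mk.inj this)
  · rw [pt_pos M A i a ha, pt_neg M A i b hb] at h
    cases h
  · rw [pt_neg M A i a ha, pt_pos M A i b hb] at h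
    cases h
  · rw [pt_neg M A i a ha, pt_neg M A i b hb] at h
    exact (Prod.mk.inj (Sum.inr.inj h)).2

theorem pt_eq {i j : A.I} (hij : i ≠ j) {a b : Fin M} (h : pt M A i a = pt M A j b) :
    ∃ (ha : a.val < t) (hb : b.val < t), A.e i ⟨a.val, ha⟩ = A.e j ⟨b.val, hb⟩ := by
  by_cases ha : a.val < t <;> by_cases hb : b.val < t
  · rw [pt_pos M A i a ha, pt_pos M A j b hb] at h
    exact ⟨ha, hb, Sum.inl.inj h⟩
  · rw [pt_pos M A i a ha, pt_neg M A j b hb] at h
    cases h
  · rw [pt_neg M A i a ha, pt_pos M A j b hb] at h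
    cases h
  · rw [pt_neg M A i a ha, pt_neg M A j b hb] at h
    exact absurd (Prod.mk.inj (Sum.inr.inj h)).1 hij

theorem pt_inl {i : A.I} {a : Fin M} {z : A.Z} (h : pt M A i a = Sum.inl z) :
    ∃ ha : a.val < t, A.e i ⟨a.val, ha⟩ = z := by
  by_cases ha : a.val < t
  · rw [pt_pos M A i a ha] at h
    exact ⟨ha, Sum.inl.inj h⟩
  · rw [pt_neg M A i a ha] at h
    cases h

/-- two different gadgets share at most one vertex -/
theorem pt_two {N : ℕ} (hN : 2 ≤ N) {u w : A.Z} (hfar : A.FarPair N u w) {i j : A.I}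
    (hij : i ≠ j) {a a' b b' : Fin M} (h : pt M A i a = pt M A j b)
    (h' : pt M A i a' = pt M A j b') : a = a' := by
  obtain ⟨ha, hb, he⟩ := pt_eq M A hij h
  obtain ⟨ha', hb', he'⟩ := pt_eq M A hij h'
  obtain ⟨k, hk, hkt⟩ := hfar.2 {i, j} ⟨i, by simp⟩ (by
    rw [Finset.card_pair hij]; exact hN)
  rw [Finset.mem_insert, Finset.mem_singleton] at hk
  rcases hk with rfl | rfl
  · have := hkt ⟨a.val, ha⟩ ⟨a'.val, ha'⟩
      (Or.inr (Or.inr ⟨j, by simp, hij.symm, ⟨b.val, hb⟩, he.symm⟩))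
      (Or.inr (Or.inr ⟨j, by simp, hij.symm, ⟨b'.val, hb'⟩, he'.symm⟩))
    exact Fin.ext (Fin.mk.inj this)
  · have := hkt ⟨b.val, hb⟩ ⟨b'.val, hb'⟩
      (Or.inr (Or.inr ⟨i, by simp, hij, ⟨a.val, ha⟩, he⟩))
      (Or.inr (Or.inr ⟨i, by simp, hij, ⟨a'.val, ha'⟩, he'⟩))
    have hbb : b = b' := Fin.ext (Fin.mk.inj this)
    subst hbb
    exact pt_inj M A i (h.trans h'.symm)

/-- the graph of gadgets -/
def gr : SimpleGraph (Option (A.Z ⊕ (A.I × Fin M))) where
  Adj p q := match p, q with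
    | none, none => False
    | none, some (Sum.inl _) => True
    | none, some (Sum.inr _) => False
    | some (Sum.inl _), none => True
    | some (Sum.inr _), none => False
    | some p, some q => ∃ i a b, a ≠ b ∧ p = pt M A i a ∧ q = pt M A i b
  symm := ⟨by
    rintro (_ | _ | _) (_ | _ | _) h
    · exact h
    · exact h
    · exact h
    · exact h
    · obtain ⟨i, a, b, hab, hp, hq⟩ := h
      exact ⟨i, b, a, hab.symm, hq, hp⟩
    · obtain ⟨i, a, b, hab, hp, hq⟩ := h
      exact ⟨i, b, a, hab.symm, hq, hp⟩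
    · exact h
    · obtain ⟨i, a, b, hab, hp, hq⟩ := h
      exact ⟨i, b, a, hab.symm, hq, hp⟩
    · obtain ⟨i, a, b, hab, hp, hq⟩ := h
      exact ⟨i, b, a, hab.symm, hq, hp⟩⟩
  loopless := ⟨by
    rintro (_ | _ | _) h
    · exact h
    · obtain ⟨i, a, b, hab, hp, hq⟩ := h
      exact hab (pt_inj M A i (hp.symm.trans hq))
    · obtain ⟨i, a, b, hab, hp, hq⟩ := h
      exact hab (pt_inj M A i (hp.symm.trans hq))⟩

theorem gr_none_none : ¬ (gr M A).Adj none none := fun h => h

theorem gr_none_inl (z : A.Z) : (gr M A).Adj none (some (Sum.inl z)) := trivial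

theorem gr_none_inr (z : A.I × Fin M) : ¬ (gr M A).Adj none (some (Sum.inr z)) := fun h => h

theorem gr_some (p q : A.Z ⊕ (A.I × Fin M)) :
    (gr M A).Adj (some p) (some q) ↔ ∃ i a b, a ≠ b ∧ p = pt M A i a ∧ q = pt M A i b := by
  rcases p with p | p <;> rcases q with q | q <;> exact Iff.rfl

theorem gr_none_pt (i : A.I) (a : Fin M) :
    (gr M A).Adj none (some (pt M A i a)) ↔ a.val < t := by
  by_cases ha : a.val < t
  · rw [pt_pos M A i a ha]
    exact ⟨fun _ => ha, fun _ => trivial⟩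
  · rw [pt_neg M A i a ha]
    exact ⟨fun h => absurd h (gr_none_inr M A _), fun h => absurd h ha⟩

/-- the embedding of the gadget -/
def emb (i : A.I) : Option (Fin M) → Option (A.Z ⊕ (A.I × Fin M)) := Option.map (pt M A i)

theorem emb_inj (i : A.I) : Function.Injective (emb M A i) :=
  Option.map_injective (pt_inj M A i)

theorem emb_adj (i : A.I) (p q : Option (Fin M)) :
    (gad M t).Adj p q → (gr M A).Adj (emb M A i p) (emb M A i q) := by
  rcases p with _ | a <;> rcases q with _ | b <;> intro h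
  · exact absurd h (gad M t).irrefl
  · exact (gr_none_pt M A i b).2 h
  · exact ((gr_none_pt M A i a).2 h).symm
  · exact (gr_some M A _ _).2 ⟨i, a, b, h, rfl, rfl⟩

theorem emb_adj' (i : A.I) (p q : Option (Fin M)) :
    (gr M A).Adj (emb M A i p) (emb M A i q) → (gad M t).Adj p q := by
  rcases p with _ | a <;> rcases q with _ | b <;> intro h
  · exact absurd h (gr_none_none M A)
  · exact (gr_none_pt M A i b).1 h
  · exact (gr_none_pt M A i a).1 h.symm
  · show a ≠ b
    rintro rfl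
    exact (gr M A).irrefl h

end Points

/-- a copy of `H` lies in one gadget -/
theorem cross {n : ℕ} (H : SimpleGraph (Fin n)) (hH : Sep H) {t : ℕ} (M m : ℕ) (A : Inst t)
    (u w : A.Z) (hfar : A.FarPair (m ^ 2 + n ^ 2) u w)
    (f : Fin n → Option (A.Z ⊕ (A.I × Fin M))) (hf : Function.Injective f)
    (hadj : ∀ v v', H.Adj v v' → (gr M A).Adj (f v) (f v')) :
    ∃ i : A.I, ∀ v, f v ≠ none → ∃ a, f v = some (pt M A i a) := by
  classical
  obtain ⟨hn4, hsep⟩ := hH
  -- covering families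
  let Cov : Finset A.I → Prop := fun S => ∀ v v', H.Adj v v' → f v ≠ none → f v' ≠ none →
    ∃ i ∈ S, (∃ a, f v = some (pt M A i a)) ∧ ∃ b, f v' = some (pt M A i b)
  have hcov : Cov Finset.univ := by
    intro v v' hvv hv hv'
    obtain ⟨p, hp⟩ := Option.ne_none_iff_exists'.1 hv
    obtain ⟨q, hq⟩ := Option.ne_none_iff_exists'.1 hv'
    have h := hadj v v' hvv
    rw [hp, hq, gr_some] at h
    obtain ⟨i, a, b, -, h1, h2⟩ := h
    exact ⟨i, Finset.mem_univ _, ⟨a, by rw [hp, h1]⟩, ⟨b, by rw [hq, h2]⟩⟩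
  -- a minimal one
  obtain ⟨S, hS, hmin⟩ : ∃ S, Cov S ∧ ∀ i ∈ S, ¬ Cov (S.erase i) := by
    have hex : ∃ k, ∃ S : Finset A.I, S.card = k ∧ Cov S := ⟨_, Finset.univ, rfl, hcov⟩
    obtain ⟨S, hSk, hS⟩ := Nat.find_spec hex
    refine ⟨S, hS, fun i hi hc => ?_⟩
    have h1 := Nat.find_min' hex ⟨S.erase i, rfl, hc⟩
    have h2 := Finset.card_erase_lt_of_mem hi
    omega
  -- private edges
  have hpriv : ∀ i ∈ S, ∃ e : Fin n × Fin n, H.Adj e.1 e.2 ∧ f e.1 ≠ none ∧ f e.2 ≠ none ∧
      (∃ a, f e.1 = some (pt M A i a)) ∧ (∃ b, f e.2 = some (pt M A i b)) ∧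
      ∀ j ∈ S, j ≠ i → ¬ ((∃ a, f e.1 = some (pt M A j a)) ∧ ∃ b, f e.2 = some (pt M A j b)) := by
    intro i hi
    have h := hmin i hi
    simp only [Cov] at h
    push Not at h
    obtain ⟨v, v', hvv, hv, hv', hno⟩ := h
    obtain ⟨j, hj, hja, hjb⟩ := hS v v' hvv hv hv'
    have hji : j = i := by
      by_contra hne
      obtain ⟨b, hb⟩ := hjb
      exact hno j (Finset.mem_erase.2 ⟨hne, hj⟩) hja b hb
    subst hji
    refine ⟨(v, v'), hvv, hv, hv', hja, hjb, fun k hk hkj hkk => ?_⟩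
    obtain ⟨b, hb⟩ := hkk.2
    exact hno k (Finset.mem_erase.2 ⟨hkj, hk⟩) hkk.1 b hb
  have : Nonempty (Fin n × Fin n) := ⟨(⟨0, by omega⟩, ⟨0, by omega⟩)⟩
  choose! E hE using hpriv
  have hcard : S.card ≤ m ^ 2 + n ^ 2 := by
    have h1 : S.card ≤ (Finset.univ : Finset (Fin n × Fin n)).card := by
      refine Finset.card_le_card_of_injOn E (fun _ _ => Finset.mem_coe.2 (Finset.mem_univ _)) ?_
      intro i hi j hj hij
      by_contra hne
      obtain ⟨-, -, -, h1, h2, -⟩ := hE i hi
      obtain ⟨-, -, -, -, -, h3⟩ := hE j hj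
      rw [hij] at h1 h2
      exact h3 i hi hne ⟨h1, h2⟩
    have h2 : (Finset.univ : Finset (Fin n × Fin n)).card = n ^ 2 := by
      rw [Finset.card_univ, Fintype.card_prod, Fintype.card_fin, sq]
    omega
  -- the vertices mapped to `none`
  let B : Finset (Fin n) := Finset.univ.filter fun v => f v = none
  have hB : B.card ≤ 1 := by
    rw [Finset.card_le_one]
    intro a ha b hb
    exact hf ((Finset.mem_filter.1 ha).2.trans (Finset.mem_filter.1 hb).2.symm)
  have hmemB : ∀ v, v ∉ B ↔ f v ≠ none := by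
    intro v
    simp [B]
  -- nonempty
  have hSne : S.Nonempty := by
    obtain ⟨v₀, hv₀⟩ : ∃ v, v ∉ B := by
      by_contra hcon
      push Not at hcon
      have : (Finset.univ : Finset (Fin n)).card ≤ B.card :=
        Finset.card_le_card fun v _ => hcon v
      rw [Finset.card_univ, Fintype.card_fin] at this
      omega
    obtain ⟨v₁, hv₁, hv₁'⟩ : ∃ v, v ∉ ({v₀} : Finset (Fin n)) ∧ v ∉ B := by
      by_contra hcon
      push Not at hcon
      have h1 : (Finset.univ : Finset (Fin n)).card ≤ ({v₀} ∪ B : Finset (Fin n)).card := by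
        refine Finset.card_le_card fun v _ => ?_
        by_cases h : v ∈ ({v₀} : Finset (Fin n))
        · exact Finset.mem_union_left _ h
        · exact Finset.mem_union_right _ (hcon v h)
      have h2 := Finset.card_union_le ({v₀} : Finset (Fin n)) B
      rw [Finset.card_univ, Fintype.card_fin] at h1
      rw [Finset.card_singleton] at h2
      omega
    obtain ⟨a, ha, b, -, hb, hab⟩ := hsep B {v₀} (by omega) ⟨v₀, by simp⟩
      (Finset.disjoint_singleton_left.2 hv₀) ⟨v₁, hv₁, hv₁'⟩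
    rw [Finset.mem_singleton] at ha
    subst ha
    obtain ⟨i, hi, -⟩ := hS a b hab ((hmemB _).1 hv₀) ((hmemB _).1 hb)
    exact ⟨i, hi⟩
  obtain ⟨i, hi, hleaf⟩ := hfar.2 S hSne hcard
  -- the vertices in `V_i` and in another gadget
  let T : Finset (Fin n) := Finset.univ.filter fun v =>
    ∃ j ∈ S, j ≠ i ∧ (∃ a, f v = some (pt M A i a)) ∧ ∃ b, f v = some (pt M A j b)
  have hT : T.card ≤ 1 := by
    rw [Finset.card_le_one]
    intro v hv v' hv'
    obtain ⟨-, j, hj, hji, ⟨a, ha⟩, ⟨b, hb⟩⟩ := Finset.mem_filter.1 hv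
    obtain ⟨-, j', hj', hji', ⟨a', ha'⟩, ⟨b', hb'⟩⟩ := Finset.mem_filter.1 hv'
    have h1 : pt M A i a = pt M A j b := Option.some.inj (ha.symm.trans hb)
    have h2 : pt M A i a' = pt M A j' b' := Option.some.inj (ha'.symm.trans hb')
    obtain ⟨hat, hbt, he⟩ := pt_eq M A hji.symm h1
    obtain ⟨hat', hbt', he'⟩ := pt_eq M A hji'.symm h2
    have := hleaf ⟨a.val, hat⟩ ⟨a'.val, hat'⟩
      (Or.inr (Or.inr ⟨j, hj, hji, ⟨b.val, hbt⟩, he.symm⟩))
      (Or.inr (Or.inr ⟨j', hj', hji', ⟨b'.val, hbt'⟩, he'.symm⟩))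
    have haa : a = a' := Fin.ext (Fin.mk.inj this)
    subst haa
    exact hf (ha.trans ha'.symm)
  let X : Finset (Fin n) := (Finset.univ.filter fun v => ∃ a, f v = some (pt M A i a)) \ T
  have hXne : X.Nonempty := by
    obtain ⟨h1, -, -, h2, h3, -⟩ := hE i hi
    by_cases hc : (E i).1 ∈ T
    · refine ⟨(E i).2, Finset.mem_sdiff.2 ⟨Finset.mem_filter.2 ⟨Finset.mem_univ _, h3⟩, ?_⟩⟩
      intro hc'
      exact h1.ne (Finset.card_le_one.1 hT _ hc _ hc')
    · exact ⟨(E i).1, Finset.mem_sdiff.2 ⟨Finset.mem_filter.2 ⟨Finset.mem_univ _, h2⟩, hc⟩⟩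
  refine ⟨i, ?_⟩
  by_contra hcon
  push Not at hcon
  obtain ⟨v₁, hv₁, hv₁'⟩ := hcon
  have hvX : v₁ ∉ X := by
    intro h
    obtain ⟨a, ha⟩ := (Finset.mem_filter.1 (Finset.mem_sdiff.1 h).1).2
    exact hv₁' a ha
  have hvT : v₁ ∉ T ∪ B := by
    rw [Finset.mem_union]
    rintro (h | h)
    · obtain ⟨-, j, -, -, ⟨a, ha⟩, -⟩ := Finset.mem_filter.1 h
      exact hv₁' a ha
    · exact hv₁ (Finset.mem_filter.1 h).2
  have hdisj : Disjoint X (T ∪ B) := by
    rw [Finset.disjoint_left]
    intro v hv hv'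
    obtain ⟨h1, h2⟩ := Finset.mem_sdiff.1 hv
    obtain ⟨a, ha⟩ := (Finset.mem_filter.1 h1).2
    rcases Finset.mem_union.1 hv' with h | h
    · exact h2 h
    · rw [(Finset.mem_filter.1 h).2] at ha
      cases ha
  obtain ⟨v, hv, v', hv'X, hv'T, hvv⟩ := hsep (T ∪ B) X
    ((Finset.card_union_le _ _).trans (by omega)) hXne hdisj ⟨v₁, hvX, hvT⟩
  obtain ⟨h1, h2⟩ := Finset.mem_sdiff.1 hv
  have h3 := (Finset.mem_filter.1 h1).2
  have hvne : f v ≠ none := by
    obtain ⟨a, ha⟩ := h3
    rw [ha]; exact Option.some_ne_none _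
  have hv'ne : f v' ≠ none := by
    intro h
    exact hv'T (Finset.mem_union_right _ (Finset.mem_filter.2 ⟨Finset.mem_univ _, h⟩))
  obtain ⟨j, hj, hja, hjb⟩ := hS v v' hvv hvne hv'ne
  by_cases hji : j = i
  · subst hji
    by_cases hc : v' ∈ T
    · exact hv'T (Finset.mem_union_left _ hc)
    · exact hv'X (Finset.mem_sdiff.2 ⟨Finset.mem_filter.2 ⟨Finset.mem_univ _, hjb⟩, hc⟩)
  · exact h2 (Finset.mem_filter.2 ⟨Finset.mem_univ _, j, hj, hji, h3, hja⟩)

/-- functions that are constant on few gadgets and separate `u` from `w` -/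
theorem far {t : ℕ} (M N : ℕ) (A : Inst t) (u w : A.Z) (hfar : A.FarPair N u w) (k : ℕ) :
    ∀ S : Finset A.I, S.card = k → k ≤ N → ∃ g : A.Z ⊕ (A.I × Fin M) → Bool,
      g (Sum.inl u) ≠ g (Sum.inl w) ∧ ∀ i ∈ S, ∀ a b, g (pt M A i a) = g (pt M A i b) := by
  classical
  induction k with
  | zero =>
    intro S hS _
    rw [Finset.card_eq_zero] at hS
    subst hS
    refine ⟨fun p => decide (p = Sum.inl u), ?_, fun i hi => absurd hi (Finset.notMem_empty i)⟩
    have h1 : (Sum.inl w : A.Z ⊕ (A.I × Fin M)) ≠ Sum.inl u := fun h =>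
      hfar.1 (Sum.inl.inj h).symm
    simp [hfar.1.symm]
  | succ k ih =>
    intro S hS hk
    have hne : S.Nonempty := by
      rw [← Finset.card_pos]; omega
    obtain ⟨i, hi, hleaf⟩ := hfar.2 S hne (by omega)
    obtain ⟨g, hg, hgc⟩ := ih (S.erase i) (by rw [Finset.card_erase_of_mem hi]; omega) (by omega)
    obtain ⟨b₀, hb₀⟩ : ∃ b₀, ∀ a, A.Touch S u w i a → g (Sum.inl (A.e i a)) = b₀ := by
      by_cases h : ∃ a, A.Touch S u w i a
      · obtain ⟨a, ha⟩ := h
        exact ⟨g (Sum.inl (A.e i a)), fun a' ha' => by rw [hleaf a' a ha' ha]⟩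
      · exact ⟨false, fun a ha => absurd ⟨a, ha⟩ h⟩
    refine ⟨fun p => if ∃ a, p = pt M A i a then b₀ else g p, ?_, ?_⟩
    · have hu : (if ∃ a, Sum.inl u = pt M A i a then b₀ else g (Sum.inl u)) = g (Sum.inl u) := by
        split_ifs with h
        · obtain ⟨a, ha⟩ := h
          obtain ⟨hat, he⟩ := pt_inl M A ha.symm
          rw [← he]
          exact (hb₀ _ (Or.inl he)).symm
        · rfl
      have hw : (if ∃ a, Sum.inl w = pt M A i a then b₀ else g (Sum.inl w)) = g (Sum.inl w) := by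
        split_ifs with h
        · obtain ⟨a, ha⟩ := h
          obtain ⟨hat, he⟩ := pt_inl M A ha.symm
          rw [← he]
          exact (hb₀ _ (Or.inr (Or.inl he))).symm
        · rfl
      show (if ∃ a, Sum.inl u = pt M A i a then b₀ else g (Sum.inl u)) ≠
        (if ∃ a, Sum.inl w = pt M A i a then b₀ else g (Sum.inl w))
      rw [hu, hw]
      exact hg
    · intro j hj a b
      by_cases hji : j = i
      · subst hji
        show (if ∃ a', pt M A j a = pt M A j a' then b₀ else g (pt M A j a)) =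
          (if ∃ a', pt M A j b = pt M A j a' then b₀ else g (pt M A j b))
        rw [if_pos ⟨a, rfl⟩, if_pos ⟨b, rfl⟩]
      · have key : ∀ c : Fin M, (if ∃ a', pt M A j c = pt M A i a' then b₀ else g (pt M A j c)) =
            g (pt M A j c) := by
          intro c
          split_ifs with h
          · obtain ⟨a', ha'⟩ := h
            obtain ⟨hct, hat, he⟩ := pt_eq M A hji ha'
            rw [pt_pos M A j c hct, he]
            exact (hb₀ _ (Or.inr (Or.inr ⟨j, hj, hji, ⟨c.val, hct⟩, he⟩))).symm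
          · rfl
        show (if ∃ a', pt M A j a = pt M A i a' then b₀ else g (pt M A j a)) =
          (if ∃ a', pt M A j b = pt M A i a' then b₀ else g (pt M A j b))
        rw [key, key]
        exact hgc j (Finset.mem_erase.2 ⟨hji, hj⟩) a b

/-- the colouring of the graph of gadgets -/
noncomputable def col {t : ℕ} (M : ℕ) (A : Inst t) (χ : A.Z → Bool)
    (c : A.I → Option (Fin M) → Option (Fin M) → Bool) :
    Option (A.Z ⊕ (A.I × Fin M)) → Option (A.Z ⊕ (A.I × Fin M)) → Bool
  | none, some (Sum.inl z) => χ z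
  | some (Sum.inl z), none => χ z
  | some p, some q => by
      classical
      exact decide (∃ i a b, a ≠ b ∧ p = pt M A i a ∧ q = pt M A i b ∧
        c i (some a) (some b) = true)
  | _, _ => false

theorem col_some {t : ℕ} (M : ℕ) (A : Inst t) (χ : A.Z → Bool)
    (c : A.I → Option (Fin M) → Option (Fin M) → Bool) (p q : A.Z ⊕ (A.I × Fin M)) :
    col M A χ c (some p) (some q) = true ↔ ∃ i a b, a ≠ b ∧ p = pt M A i a ∧ q = pt M A i b ∧
      c i (some a) (some b) = true := by
  rcases p with p | p <;> rcases q with q | q <;> exact decide_eq_true_iff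

theorem col_symm {t : ℕ} (M : ℕ) (A : Inst t) (χ : A.Z → Bool)
    (c : A.I → Option (Fin M) → Option (Fin M) → Bool) (hc : ∀ i p q, c i p q = c i q p)
    (p q : Option (A.Z ⊕ (A.I × Fin M))) : col M A χ c p q = col M A χ c q p := by
  have key : ∀ p q : A.Z ⊕ (A.I × Fin M), col M A χ c (some p) (some q) =
      col M A χ c (some q) (some p) := by
    intro p q
    rw [Bool.eq_iff_iff, col_some, col_some]
    constructor
    · rintro ⟨i, a, b, hab, h1, h2, h3⟩
      exact ⟨i, b, a, hab.symm, h2, h1, by rw [hc]; exact h3⟩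
    · rintro ⟨i, a, b, hab, h1, h2, h3⟩
      exact ⟨i, b, a, hab.symm, h2, h1, by rw [hc]; exact h3⟩
  rcases p with _ | p | p <;> rcases q with _ | q | q
  · rfl
  · rfl
  · rfl
  · rfl
  · exact key _ _
  · exact key _ _
  · rfl
  · exact key _ _
  · exact key _ _

theorem sender_of_inst {n : ℕ} (H : SimpleGraph (Fin n)) (hH : Sep H) {M t : ℕ} (htM : t ≤ M)
    (m : ℕ) (β : Bool) (A : Inst t) (u w : A.Z) (hfar : A.FarPair (m ^ 2 + n ^ 2) u w)
    (hsat : ∃ χ, A.Sat (pat H htM) χ)
    (hforce : ∀ χ, A.Sat (pat H htM) χ → (χ u = χ w ↔ β = true)) :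
    ∃ (V : Type) (_ : Fintype V) (G : SimpleGraph V) (x y y' : V), IsSender H m β G x y y' := by
  classical
  have hN : 2 ≤ m ^ 2 + n ^ 2 := by
    have := hH.1
    nlinarith
  refine ⟨Option (A.Z ⊕ (A.I × Fin M)), inferInstance, gr M A, none, some (Sum.inl u),
    some (Sum.inl w), ?_, trivial, trivial, ?_, ?_, ?_⟩
  · intro h
    exact hfar.1 (Sum.inl.inj (Option.some.inj h))
  · -- existence
    obtain ⟨χ, hχ⟩ := hsat
    choose c hc hcs using hχ
    refine ⟨col M A χ c, col_symm M A χ c fun i => (hc i).1, ?_⟩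
    intro γ f hf hmono
    obtain ⟨i, hi⟩ := cross H hH M m A u w hfar f hf fun v v' h => (hmono v v' h).1
    have hex : ∀ v, ∃ p : Option (Fin M), f v = emb M A i p := by
      intro v
      by_cases h : f v = none
      · exact ⟨none, h⟩
      · obtain ⟨a, ha⟩ := hi v h
        exact ⟨some a, ha⟩
    choose f' hf' using hex
    refine (hc i).2 γ f' ?_ ?_
    · intro v v' h
      exact hf (by rw [hf', hf', h])
    · intro v v' h
      obtain ⟨h1, h2⟩ := hmono v v' h
      rw [hf', hf'] at h1 h2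
      refine ⟨emb_adj' M A i _ _ h1, ?_⟩
      have h4 := emb_adj' M A i _ _ h1
      revert h2 h4
      generalize f' v = p
      generalize f' v' = q
      intro h2 h4
      have hstar : ∀ a : Fin M, ∀ ha : a.val < t, c i none (some a) = χ (A.e i ⟨a.val, ha⟩) := by
        intro a ha
        exact hcs i ⟨a.val, ha⟩
      rcases p with _ | a <;> rcases q with _ | b
      · exact absurd h4 (gad M t).irrefl
      · have hb : b.val < t := h4
        have h5 : emb M A i (some b) = some (Sum.inl (A.e i ⟨b.val, hb⟩)) := by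
          show some (pt M A i b) = _
          rw [pt_pos M A i b hb]
        rw [h5] at h2
        rw [hstar b hb]
        exact h2
      · have ha : a.val < t := h4
        have h5 : emb M A i (some a) = some (Sum.inl (A.e i ⟨a.val, ha⟩)) := by
          show some (pt M A i a) = _
          rw [pt_pos M A i a ha]
        rw [h5] at h2
        rw [(hc i).1, hstar a ha]
        exact h2
      · have hab : a ≠ b := h4
        rw [← h2]
        show c i (some a) (some b) = col M A χ c (some (pt M A i a)) (some (pt M A i b))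
        rw [Bool.eq_iff_iff, col_some]
        constructor
        · intro h7
          exact ⟨i, a, b, hab, rfl, rfl, h7⟩
        · rintro ⟨i', a', b', hab', h7, h8, h9⟩
          by_cases hii : i = i'
          · subst hii
            rw [pt_inj M A i h7, pt_inj M A i h8]
            exact h9
          · exact absurd (pt_two M A hN hfar hii h7 h8) hab
  · -- forcing
    intro c hc
    refine hforce (fun z => c none (some (Sum.inl z))) fun i => ?_
    refine ⟨fun p q => c (emb M A i p) (emb M A i q), ⟨fun p q => hc.1 _ _, ?_⟩, ?_⟩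
    · intro γ f hf hmono
      refine hc.2 γ (emb M A i ∘ f) ((emb_inj M A i).comp hf) fun v v' h => ?_
      obtain ⟨h1, h2⟩ := hmono v v' h
      exact ⟨emb_adj M A i _ _ h1, h2⟩
    · intro a
      show c none (some (pt M A i (Fin.castLE htM a))) = _
      rw [pt_pos M A i (Fin.castLE htM a) a.isLt]
      rfl
  · -- far
    intro C hnC hCm
    let S : Finset A.I := Finset.univ.filter fun i => ∃ s ∈ C, ∃ s' ∈ C, ∃ a b, a ≠ b ∧
      s = some (pt M A i a) ∧ s' = some (pt M A i b)
    have hScard : S.card ≤ m ^ 2 + n ^ 2 := by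
      have hex : ∀ i ∈ S, ∃ e : Option (A.Z ⊕ (A.I × Fin M)) × Option (A.Z ⊕ (A.I × Fin M)),
          e.1 ∈ C ∧ e.2 ∈ C ∧ ∃ a b, a ≠ b ∧ e.1 = some (pt M A i a) ∧
            e.2 = some (pt M A i b) := by
        intro i hi
        obtain ⟨-, s, hs, s', hs', a, b, hab, h1, h2⟩ := Finset.mem_filter.1 hi
        exact ⟨(s, s'), hs, hs', a, b, hab, h1, h2⟩
      have : Nonempty (Option (A.Z ⊕ (A.I × Fin M)) × Option (A.Z ⊕ (A.I × Fin M))) :=
        ⟨(none, none)⟩
      choose! E hE using hex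
      have h1 : S.card ≤ (C ×ˢ C).card := by
        refine Finset.card_le_card_of_injOn E (fun i hi => ?_) ?_
        · obtain ⟨h1, h2, -⟩ := hE i hi
          exact Finset.mem_coe.2 (Finset.mem_product.2 ⟨h1, h2⟩)
        · intro i hi j hj hij
          by_contra hne
          obtain ⟨-, -, a, b, hab, h1, h2⟩ := hE i hi
          obtain ⟨-, -, a', b', hab', h3, h4⟩ := hE j hj
          rw [hij] at h1 h2
          exact hab (pt_two M A hN hfar hne (Option.some.inj (h1.symm.trans h3))
            (Option.some.inj (h2.symm.trans h4)))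
      rw [Finset.card_product] at h1
      have h2 : C.card * C.card ≤ m * m := Nat.mul_le_mul hCm hCm
      have h3 : m ^ 2 = m * m := sq m
      omega
    obtain ⟨g, hg, hgc⟩ := far M (m ^ 2 + n ^ 2) A u w hfar S.card S rfl hScard
    refine ⟨fun p => p.elim false g, hg, ?_⟩
    intro s hs s' hs' hadj
    rcases s with _ | p
    · exact absurd hs hnC
    rcases s' with _ | q
    · exact absurd hs' hnC
    rw [gr_some] at hadj
    obtain ⟨i, a, b, hab, h1, h2⟩ := hadj
    show g p = g q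
    rw [h1, h2]
    refine hgc i (Finset.mem_filter.2 ⟨Finset.mem_univ _, _, hs, _, hs', a, b, hab, ?_, ?_⟩) a b
    · rw [h1]
    · rw [h2]

end Pool.Agent.Helper45.BEL
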